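import Pool.Agent.Work.MP_707689_an.Plancherel

-- merged part: Pool.Agent.Work.MP_707689_an.Frame
section
open MeasureTheory Set Filter Topology
open scoped ENNReal NNReal InnerProductSpace

namespace Pool.Agent.Work.MP_707689_an

variable {H : Type} [NormedAddCommGroup H] [InnerProductSpace ℂ H] [CompleteSpace H]

/-- bounded continuous Bessel family indexed by the plane -/
structure Frame (M : ℝ≥0) (v : ℝ × ℝ → H) : Prop where
  cont : Continuous v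
  bdd : ∀ k, ‖v k‖ₑ ≤ M
  bessel : ∀ h : H, ∫⁻ k, ‖⟪h, v k⟫_ℂ‖ₑ ^ 2 ≤ (M * ‖h‖ₑ) ^ 2

variable {M : ℝ≥0} {v w : ℝ × ℝ → H}

theorem Frame.shift (hv : Frame M v) (a : ℝ × ℝ) : Frame M fun k => v (k + a) :=
  ⟨hv.cont.comp (continuous_add_const a), fun _ => hv.bdd _, fun h => by
    rw [lintegral_add_right_eq_self (fun k => ‖⟪h, v k⟫_ℂ‖ₑ ^ 2) a]
    exact hv.bessel h⟩

theorem enorm_app {U : H →L[ℂ] H} (hU : ‖U‖ ≤ 1) (x : H) : ‖U x‖ₑ ≤ ‖x‖ₑ := by
  rw [enorm_le_iff_norm_le]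
  exact (U.le_opNorm x).trans (mul_le_of_le_one_left (norm_nonneg _) hU)

theorem Frame.map (hv : Frame M v) {U : H →L[ℂ] H} (hU : ‖U‖ ≤ 1) : Frame M fun k => U (v k) :=
  ⟨U.continuous.comp hv.cont, fun k => (enorm_app hU _).trans (hv.bdd k), fun h => by
    simp only [← ContinuousLinearMap.adjoint_inner_left]
    refine (hv.bessel _).trans ?_
    gcongr
    exact enorm_app (by simpa using hU) h⟩

theorem meas_pair (hv : Frame M v) (hw : Frame M w) (D : H →L[ℂ] H) :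
    Measurable fun k => ‖⟪w k, D (v k)⟫_ℂ‖ₑ :=
  (hw.cont.inner (D.continuous.comp hv.cont)).measurable.enorm

theorem pair_le (hv : Frame M v) (hw : Frame M w) (D : H →L[ℂ] H) (k : ℝ × ℝ) :
    ‖⟪w k, D (v k)⟫_ℂ‖ₑ ≤ M ^ 2 * ‖D‖ₑ := by
  have h1 : ‖⟪w k, D (v k)⟫_ℂ‖ₑ ≤ ‖w k‖ₑ * (‖D‖ₑ * ‖v k‖ₑ) := by
    simp only [enorm_eq_nnnorm, ← ENNReal.coe_mul, ENNReal.coe_le_coe]
    exact (nnnorm_inner_le_nnnorm _ _).trans (by gcongr; exact D.le_opNNNorm _)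
  refine h1.trans ((mul_le_mul' (hw.bdd k) (mul_le_mul_right (hv.bdd k) _)).trans (le_of_eq ?_))
  ring

/-- the unit square -/
def Q : Set (ℝ × ℝ) := Icc 0 1 ×ˢ Icc 0 1

/-- the right half plane -/
def Hp : Set (ℝ × ℝ) := {k | 0 ≤ k.1}

theorem measQ : MeasurableSet Q := measurableSet_Icc.prod measurableSet_Icc

theorem measHp : MeasurableSet Hp := measurableSet_le measurable_const measurable_fst

theorem volQ : volume Q = 1 := by
  rw [Q, Measure.volume_eq_prod, Measure.prod_prod]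
  simp

/-- integral along the rays through the unit square -/
noncomputable def Phi (g : ℝ × ℝ → ℝ≥0∞) : ℝ≥0∞ :=
  ∫⁻ z : ℝ × ℝ × ℝ, g (z.1 • z.2) ∂((volume.restrict (Ioi 0)).prod (volume.restrict Q))

theorem meas_ray {g : ℝ × ℝ → ℝ≥0∞} (hg : Measurable g) :
    Measurable fun z : ℝ × ℝ × ℝ => g (z.1 • z.2) := hg.comp (measurable_fst.smul measurable_snd)

theorem sq_le {g : ℝ × ℝ → ℝ≥0∞} (hg : Measurable g) {l : ℝ} (hl : 0 < l) :
    ∫⁻ u in Q, g (l • u) ≤ ENNReal.ofReal (l ^ 2)⁻¹ * ∫⁻ k in Hp, g k := by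
  rw [← lintegral_indicator measHp, ← lint_smul (hg.indicator measHp) hl,
    ← lintegral_indicator measQ]
  refine lintegral_mono fun u => ?_
  by_cases hu : u ∈ Q
  · rw [indicator_of_mem hu, indicator_of_mem (show l • u ∈ Hp from mul_nonneg hl.le hu.1.1)]
  · simp [hu]

theorem sq_le' {g : ℝ × ℝ → ℝ≥0∞} {c : ℝ≥0∞} (hc : ∀ k, g k ≤ c) : ∫⁻ u in Q, g u ≤ c :=
  (lintegral_mono hc).trans (by simp [volQ])

theorem Phi_le {g : ℝ × ℝ → ℝ≥0∞} (hg : Measurable g) {c d : ℝ≥0∞} (hc : ∀ k, g k ≤ c)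
    (hd : ∫⁻ k in Hp, g k ≤ d) {T : ℝ} (hT : 0 < T) :
    Phi g ≤ c * ENNReal.ofReal T + d * ENNReal.ofReal T⁻¹ := by
  rw [Phi, lintegral_prod _ (meas_ray hg).aemeasurable, ← Ioc_union_Ioi_eq_Ioi hT.le]
  refine (lintegral_union_le _ _ _).trans (add_le_add ?_ ?_)
  · exact (lintegral_mono fun l => sq_le' fun _ => hc _).trans (by simp)
  · have h1 : ∫⁻ l in Ioi T, ENNReal.ofReal (l ^ (-2 : ℝ)) = ENNReal.ofReal T⁻¹ := by
      rw [← ofReal_integral_eq_lintegral_ofReal (integrableOn_Ioi_rpow_of_lt (by norm_num) hT)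
        ((ae_restrict_iff' measurableSet_Ioi).mpr (Eventually.of_forall fun l hl =>
          Real.rpow_nonneg (hT.trans hl).le _)), integral_Ioi_rpow_of_lt (by norm_num) hT]
      norm_num [Real.rpow_neg_one]
    rw [← h1, ← lintegral_const_mul _ (by fun_prop)]
    refine setLIntegral_mono' measurableSet_Ioi fun l hl => ?_
    refine (sq_le hg (hT.trans hl)).trans ?_
    rw [mul_comm, Real.rpow_neg (hT.trans hl).le, Real.rpow_two]
    gcongr

theorem Phi_add {g g₁ g₂ : ℝ × ℝ → ℝ≥0∞} (h₁ : Measurable g₁) (h : ∀ k, g k ≤ g₁ k + g₂ k) :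
    Phi g ≤ Phi g₁ + Phi g₂ := by
  rw [Phi, Phi, Phi, ← lintegral_add_left (meas_ray h₁)]
  exact lintegral_mono fun _ => h _

theorem cs {α : Type*} [MeasurableSpace α] {μ : Measure α} {a b : α → ℝ≥0∞} (ha : Measurable a)
    (hb : Measurable b) {A B : ℝ≥0∞} (hA : ∫⁻ x, a x ^ 2 ∂μ ≤ A ^ 2)
    (hB : ∫⁻ x, b x ^ 2 ∂μ ≤ B ^ 2) : ∫⁻ x, a x * b x ∂μ ≤ A * B := by
  have e : ∀ {x y : ℝ≥0∞}, x ≤ y ^ 2 → x ^ (1 / 2 : ℝ) ≤ y := fun {x y} h => by
    refine (ENNReal.rpow_le_rpow h (by norm_num)).trans (le_of_eq ?_)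
    rw [← ENNReal.rpow_two, ← ENNReal.rpow_mul]
    simp
  refine (ENNReal.lintegral_mul_le_Lp_mul_Lq μ Real.HolderConjugate.two_two ha.aemeasurable
    hb.aemeasurable).trans (mul_le_mul' (e ?_) (e ?_))
  · simpa using hA
  · simpa using hB

/-- rank at most `r` -/
def Rk (r : ℕ) (F : H →L[ℂ] H) : Prop :=
  Module.rank ℂ (LinearMap.range (F : H →ₗ[ℂ] H)) ≤ (r : Cardinal)

theorem Rk.decomp {r : ℕ} {F : H →L[ℂ] H} (h : Rk r F) : ∃ (n : ℕ) (e f : Fin n → H), n ≤ r ∧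
    (∀ i, ‖e i‖ₑ ≤ 1) ∧ (∀ i, ‖f i‖ₑ ≤ ‖F‖ₑ) ∧
    ∀ x y, ‖⟪x, F y⟫_ℂ‖ₑ ≤ ∑ i, ‖⟪e i, x⟫_ℂ‖ₑ * ‖⟪f i, y⟫_ℂ‖ₑ := by
  have : FiniteDimensional ℂ (LinearMap.range (F : H →ₗ[ℂ] H)) :=
    Module.rank_lt_aleph0_iff.mp (lt_of_le_of_lt h Cardinal.natCast_lt_aleph0)
  set b := stdOrthonormalBasis ℂ (LinearMap.range (F : H →ₗ[ℂ] H))
  have hb : ∀ i, ‖(b i : H)‖ = 1 := fun i => b.orthonormal.1 i
  refine ⟨_, fun i => b i, fun i => ContinuousLinearMap.adjoint F (b i),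
    Module.finrank_le_of_rank_le h, fun i => ?_, fun i => ?_, fun x y => ?_⟩
  · rw [← ofReal_norm, hb, ENNReal.ofReal_one]
  · rw [enorm_le_iff_norm_le]
    simpa [hb] using (ContinuousLinearMap.adjoint F).le_opNorm (b i)
  · have h1 := congrArg (fun z : LinearMap.range (F : H →ₗ[ℂ] H) => ⟪x, (z : H)⟫_ℂ)
      (b.sum_repr' ⟨F y, LinearMap.mem_range_self _ y⟩)
    simp only [Submodule.coe_sum, Submodule.coe_smul, inner_sum, inner_smul_right,
      Submodule.coe_inner] at h1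
    rw [← h1]
    refine (enorm_sum_le _ _).trans (Finset.sum_le_sum fun i _ => le_of_eq ?_)
    rw [enorm_mul, mul_comm, ContinuousLinearMap.adjoint_inner_left, ← ofReal_norm (⟪x, _⟫_ℂ),
      norm_inner_symm, ofReal_norm]

theorem Frame.meas (hv : Frame M v) (h : H) : Measurable fun k => ‖⟪h, v k⟫_ℂ‖ₑ :=
  (continuous_const.inner hv.cont).measurable.enorm

theorem lint_rank (hv : Frame M v) (hw : Frame M w) {r : ℕ} {D : H →L[ℂ] H} (hD : Rk r D) :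
    ∫⁻ k in Hp, ‖⟪w k, D (v k)⟫_ℂ‖ₑ ≤ M ^ 2 * ‖D‖ₑ * r := by
  obtain ⟨n, e, f, hn, he, hf, h⟩ := hD.decomp
  refine (setLIntegral_le_lintegral _ _).trans ((lintegral_mono fun k => h _ _).trans ?_)
  rw [lintegral_finsetSum _ fun i _ => (hw.meas _).fun_mul (hv.meas _)]
  refine (Finset.sum_le_sum (g := fun _ => (M : ℝ≥0∞) ^ 2 * ‖D‖ₑ) fun i _ => ?_).trans ?_
  · refine (cs (hw.meas _) (hv.meas _) (hw.bessel _) (hv.bessel _)).trans ?_
    refine (mul_le_mul' (mul_le_mul_right (he i) _) (mul_le_mul_right (hf i) _)).trans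
      (le_of_eq ?_)
    ring
  · rw [Finset.sum_const, Finset.card_univ, Fintype.card_fin, nsmul_eq_mul, mul_comm]
    gcongr

theorem Phi_rank (hv : Frame M v) (hw : Frame M w) {r : ℕ} {D : H →L[ℂ] H} (hD : Rk r D) {T : ℝ}
    (hT : 0 < T) (hr : (r : ℝ) ≤ T ^ 2) :
    Phi (fun k => ‖⟪w k, D (v k)⟫_ℂ‖ₑ) ≤ M ^ 2 * ENNReal.ofReal (2 * (‖D‖ * T)) := by
  refine (Phi_le (meas_pair hv hw D) (pair_le hv hw D) (lint_rank hv hw hD) hT).trans ?_
  have h1 : (r : ℝ≥0∞) * ENNReal.ofReal T⁻¹ ≤ ENNReal.ofReal T := by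
    rw [← ENNReal.ofReal_natCast, ← ENNReal.ofReal_mul (Nat.cast_nonneg _)]
    refine ENNReal.ofReal_le_ofReal ?_
    rw [mul_inv_le_iff₀ hT, ← sq]
    exact hr
  rw [two_mul, ENNReal.ofReal_add (by positivity) (by positivity),
    ENNReal.ofReal_mul (norm_nonneg _), ofReal_norm, mul_add, ← mul_assoc, mul_assoc _ (r : ℝ≥0∞)]
  gcongr

theorem decay (hv : Frame M v) {n : ℕ} (e f : Fin n → H) {c ε : ℝ≥0∞} (hc : c ≠ ∞) (hε : 0 < ε) :
    ∀ᶠ s : ℝ in atTop, ∀ w : ℝ × ℝ → H, Frame M w → ∀ g : ℝ × ℝ → ℝ≥0∞, Measurable g →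
      (∀ k, g k ≤ c) → (∀ k, g k ≤ ∑ i, ‖⟪e i, w k⟫_ℂ‖ₑ * ‖⟪f i, v (k + (s, 0))⟫_ℂ‖ₑ) →
      Phi g ≤ ε := by
  have tail : ∀ h : H, Tendsto (fun s : ℝ => ∫⁻ k in Hp, ‖⟪h, v (k + (s, 0))⟫_ℂ‖ₑ ^ 2) atTop
      (𝓝 0) := by
    intro h
    set ν := volume.withDensity fun k => ‖⟪h, v k⟫_ℂ‖ₑ ^ 2 with hν
    have ms : ∀ s : ℝ, MeasurableSet {k : ℝ × ℝ | s ≤ k.1} := fun s =>
      measurableSet_le measurable_const measurable_fst
    have h1 := tendsto_measure_iInter_atTop (μ := ν) (s := fun s : ℝ => {k : ℝ × ℝ | s ≤ k.1})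
      (fun s => (ms s).nullMeasurableSet) (fun s t hst k hk => le_trans hst hk)
      ⟨0, ne_top_of_le_ne_top (b := (M * ‖h‖ₑ) ^ 2) (by finiteness) ((measure_mono (subset_univ _)).trans (by
        rw [hν, withDensity_apply _ MeasurableSet.univ, Measure.restrict_univ]
        exact hv.bessel h))⟩
    have h2 : ⋂ s : ℝ, {k : ℝ × ℝ | s ≤ k.1} = ∅ := by
      refine eq_empty_of_forall_notMem fun k hk => ?_
      have := mem_iInter.mp hk (k.1 + 1)
      simp only [mem_setOf_eq] at this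
      linarith
    rw [h2, measure_empty] at h1
    refine h1.congr fun s => ?_
    simp only [Function.comp, hν]
    rw [withDensity_apply _ (ms s), ← lintegral_indicator (ms s), ← lintegral_indicator measHp,
      ← lintegral_add_right_eq_self _ (s, (0 : ℝ))]
    congr 1
    funext k
    by_cases hk : 0 ≤ k.1 <;> simp [indicator, Hp, hk]
  obtain ⟨T, hT, hT'⟩ := ENNReal.exists_nnreal_pos_mul_lt hc (ENNReal.half_pos hε.ne').ne'
  have h3 : Tendsto (fun s : ℝ => (∑ i, M * ‖e i‖ₑ *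
      (∫⁻ k in Hp, ‖⟪f i, v (k + (s, 0))⟫_ℂ‖ₑ ^ 2) ^ (1 / 2 : ℝ)) * ENNReal.ofReal (T : ℝ)⁻¹)
      atTop (𝓝 0) := by
    have := ENNReal.Tendsto.mul_const (b := ENNReal.ofReal (T : ℝ)⁻¹)
      (tendsto_finsetSum Finset.univ fun i _ =>
        ENNReal.Tendsto.const_mul (a := M * ‖e i‖ₑ) ((tail (f i)).ennrpow_const (1 / 2 : ℝ))
        (Or.inr (by finiteness))) (Or.inr ENNReal.ofReal_ne_top)
    simpa using this
  filter_upwards [ENNReal.tendsto_nhds_zero.mp h3 (ε / 2) (ENNReal.half_pos hε.ne')] with s hs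
  intro w hw g hg hgc hgs
  refine (Phi_le hg hgc ?_ (T := T) hT).trans ((add_le_add ?_ hs).trans (ENNReal.add_halves ε).le)
  · refine (lintegral_mono hgs).trans ?_
    rw [lintegral_finsetSum _ fun i _ => (hw.meas _).fun_mul ((hv.shift _).meas _)]
    refine Finset.sum_le_sum fun i _ => cs (hw.meas _) ((hv.shift _).meas _)
      ((setLIntegral_le_lintegral _ _).trans (hw.bessel _)) (le_of_eq ?_)
    rw [← ENNReal.rpow_two, ← ENNReal.rpow_mul]
    simp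
  · rw [ENNReal.ofReal_coe_nnreal, mul_comm]
    exact hT'.le

/-- approximation by finite rank operators in the two senses needed -/
def Apx (K : H →L[ℂ] H) : Prop :=
  ∀ ε : ℝ≥0∞, 0 < ε → ∃ F r, Rk r F ∧ ‖K - F‖ₑ ≤ ε ∧ ∀ (M : ℝ≥0) (v w : ℝ × ℝ → H),
    Frame M v → Frame M w → Phi (fun k => ‖⟪w k, (K - F) (v k)⟫_ℂ‖ₑ) ≤ M ^ 2 * ε

theorem split_pair (K F : H →L[ℂ] H) (x y : H) :
    ‖⟪x, K y⟫_ℂ‖ₑ ≤ ‖⟪x, (K - F) y⟫_ℂ‖ₑ + ‖⟪x, F y⟫_ℂ‖ₑ := by
  refine le_trans (le_of_eq ?_) (enorm_add_le _ _)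
  simp [inner_sub_right]

theorem Apx.small {K : H →L[ℂ] H} (hK : Apx K) (hv : Frame M v) {ε : ℝ≥0∞} (hε : 0 < ε) :
    ∀ᶠ s : ℝ in atTop, ∀ w : ℝ × ℝ → H, Frame M w →
      Phi (fun k => ‖⟪w k, K (v (k + (s, 0)))⟫_ℂ‖ₑ) ≤ ε ∧
      Phi (fun k => ‖⟪v (k + (s, 0)), K (w k)⟫_ℂ‖ₑ) ≤ ε := by
  have h2 := ENNReal.half_pos hε.ne'
  obtain ⟨δ, hδ, hδ'⟩ := ENNReal.exists_nnreal_pos_mul_lt (a := (M : ℝ≥0∞) ^ 2) (by finiteness)
    h2.ne'
  obtain ⟨F, r, hF, -, hΦ⟩ := hK δ (by exact_mod_cast hδ)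
  obtain ⟨n, e, f, -, -, -, h⟩ := hF.decomp
  have hc : (M : ℝ≥0∞) ^ 2 * ‖F‖ₑ ≠ ∞ := by finiteness
  rw [mul_comm] at hδ'
  filter_upwards [decay hv e f hc h2, decay hv f e hc h2] with s h3 h4 w hw
  have hs := hv.shift (s, 0)
  constructor
  · refine (Phi_add (meas_pair hs hw _) fun k => split_pair K F _ _).trans
      ((add_le_add ((hΦ M _ _ hs hw).trans hδ'.le) ?_).trans (ENNReal.add_halves ε).le)
    exact h3 w hw _ (meas_pair hs hw _) (pair_le hs hw _) fun k => h _ _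
  · refine (Phi_add (meas_pair hw hs _) fun k => split_pair K F _ _).trans
      ((add_le_add ((hΦ M _ _ hw hs).trans hδ'.le) ?_).trans (ENNReal.add_halves ε).le)
    exact h4 w hw _ (meas_pair hw hs _) (pair_le hw hs _) fun k =>
      (h _ _).trans (le_of_eq (by simp only [mul_comm]))

theorem Apx.boundary {K : H →L[ℂ] H} (hK : Apx K) (M : ℝ≥0) {ε : ℝ≥0∞} (hε : 0 < ε) :
    ∃ l : ℝ, 0 < l ∧ ∀ v w : ℝ × ℝ → H, Frame M v → Frame M w →
      ∫⁻ u in Q, ‖⟪w (l • u), K (v (l • u))⟫_ℂ‖ₑ ≤ ε := by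
  have h2 := ENNReal.half_pos hε.ne'
  obtain ⟨δ, hδ, hδ'⟩ := ENNReal.exists_nnreal_pos_mul_lt (a := (M : ℝ≥0∞) ^ 2) (by finiteness)
    h2.ne'
  obtain ⟨F, r, hF, hn, -⟩ := hK δ (by exact_mod_cast hδ)
  obtain ⟨η, hη, hη'⟩ := ENNReal.exists_nnreal_pos_mul_lt
    (a := (M : ℝ≥0∞) ^ 2 * ‖F‖ₑ * r) (by finiteness) h2.ne'
  have hl : 0 < √(η : ℝ)⁻¹ := by positivity
  refine ⟨_, hl, fun v w hv hw => ?_⟩
  refine (lintegral_mono fun u => split_pair K F _ _).trans ?_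
  rw [lintegral_add_left (f := fun u => ‖⟪w (√(η : ℝ)⁻¹ • u), (K - F) (v (√(η : ℝ)⁻¹ • u))⟫_ℂ‖ₑ)
    ((meas_pair hv hw _).comp (measurable_const_smul _))]
  refine (add_le_add (sq_le' fun u => (pair_le hv hw _ _).trans ?_)
    ((sq_le (meas_pair hv hw F) hl).trans ?_)).trans (ENNReal.add_halves ε).le
  · exact (mul_le_mul_right hn _).trans (by rw [mul_comm]; exact hδ'.le)
  · rw [Real.sq_sqrt (by positivity), inv_inv, ENNReal.ofReal_coe_nnreal]
    exact (mul_le_mul_right (lint_rank hv hw hF) _).trans hη'.le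

end Pool.Agent.Work.MP_707689_an
end

-- merged part: Pool.Agent.Work.MP_707689_an.Approx
section
open MeasureTheory Set Filter Topology
open scoped ENNReal NNReal InnerProductSpace

namespace Pool.Agent.Work.MP_707689_an

variable {H : Type} [NormedAddCommGroup H] [InnerProductSpace ℂ H] [CompleteSpace H]

theorem Rk.sub {r r' : ℕ} {F G : H →L[ℂ] H} (hF : Rk r F) (hG : Rk r' G) : Rk (r + r') (F - G) := by
  have h1 : LinearMap.range ((F - G : H →L[ℂ] H) : H →ₗ[ℂ] H) ≤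
      LinearMap.range (F : H →ₗ[ℂ] H) ⊔ LinearMap.range (G : H →ₗ[ℂ] H) := by
    rintro _ ⟨x, rfl⟩
    exact Submodule.sub_mem _ (Submodule.mem_sup_left ⟨x, rfl⟩) (Submodule.mem_sup_right ⟨x, rfl⟩)
  refine (Submodule.rank_mono h1).trans ((Submodule.rank_add_le_rank_add_rank _ _).trans ?_)
  push_cast
  exact add_le_add hF hG

theorem apx_of_seq {K : H →L[ℂ] H} (F : ℕ → H →L[ℂ] H) (r r' : ℕ → ℕ) (T : ℕ → ℝ)
    (hF : ∀ m, Rk (r m) (F m)) (hD : ∀ m, Rk (r' m) (F (m + 1) - F m)) (hT : ∀ m, 1 ≤ T m)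
    (hr : ∀ m, (r' m : ℝ) ≤ T m ^ 2) (hs : Summable fun m => ‖F (m + 1) - F m‖ * T m)
    (hl : Tendsto F atTop (𝓝 K)) : Apx K := by
  intro ε hε
  have h1 := ENNReal.tendsto_ofReal
    (tendsto_sum_nat_add fun m => 2 * (‖F (m + 1) - F m‖ * T m))
  have h2 : Tendsto (fun m => ‖K - F m‖ₑ) atTop (𝓝 0) := by
    simpa using (hl.const_sub K).enorm
  rw [ENNReal.ofReal_zero] at h1
  obtain ⟨n, hn1, hn2⟩ := ((ENNReal.tendsto_nhds_zero.mp h1 ε hε).and
    (ENNReal.tendsto_nhds_zero.mp h2 ε hε)).exists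
  refine ⟨F n, r n, hF n, hn2, fun M v w hv hw => ?_⟩
  have hs' : Summable fun m => ‖F (m + n + 1) - F (m + n)‖ * T (m + n) :=
    (summable_nat_add_iff (f := fun m => ‖F (m + 1) - F m‖ * T m) n).mpr hs
  have hsum : HasSum (fun m => F (m + n + 1) - F (m + n)) (K - F n) := by
    rw [hasSum_iff_tendsto_nat_of_summable_norm (hs'.of_nonneg_of_le (fun _ => norm_nonneg _)
      fun m => le_mul_of_one_le_right (norm_nonneg _) (hT _))]
    have e : ∀ j, ∑ m ∈ Finset.range j, (F (m + n + 1) - F (m + n)) = F (j + n) - F n := by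
      intro j
      simpa [add_right_comm] using Finset.sum_range_sub (fun m => F (m + n)) j
    simp only [e]
    exact (hl.comp (tendsto_add_atTop_nat n)).sub_const _
  have h3 : ∀ k, ‖⟪w k, (K - F n) (v k)⟫_ℂ‖ₑ ≤
      ∑' m, ‖⟪w k, (F (m + n + 1) - F (m + n)) (v k)⟫_ℂ‖ₑ := fun k => by
    have := (hsum.mapL ((innerSL ℂ (w k)).comp (ContinuousLinearMap.apply ℂ H (v k)))).tsum_eq
    exact le_trans (le_of_eq (congrArg _ this.symm)) enorm_tsum_le_tsum_enorm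
  refine (lintegral_mono fun z => h3 _).trans ?_
  rw [lintegral_tsum fun m => (meas_ray (meas_pair hv hw _)).aemeasurable]
  refine (ENNReal.tsum_le_tsum fun m => Phi_rank hv hw (hD (m + n))
    (one_pos.trans_le (hT _)) (hr _)).trans ?_
  rw [ENNReal.tsum_mul_left, ← ENNReal.ofReal_tsum_of_nonneg
    (fun m => by have := hT (m + n); positivity) (hs'.mul_left 2)]
  gcongr

theorem apx_of_summable {K : H →L[ℂ] H}
    (h : Summable fun k : ℕ => sInf {r : ℝ | ∃ F : H →L[ℂ] H,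
      Module.rank ℂ (LinearMap.range (F : H →ₗ[ℂ] H)) ≤ (k : Cardinal) ∧ r = ‖K - F‖} /
        Real.sqrt ((k : ℝ) + 1)) : Apx K := by
  set a : ℕ → ℝ := fun k => sInf {r : ℝ | ∃ F : H →L[ℂ] H, Rk k F ∧ r = ‖K - F‖} with ha
  have hne : ∀ k, {r : ℝ | ∃ F : H →L[ℂ] H, Rk k F ∧ r = ‖K - F‖}.Nonempty := fun k =>
    ⟨_, 0, by simp [Rk], rfl⟩
  have hlb : ∀ k, ∀ r ∈ {r : ℝ | ∃ F : H →L[ℂ] H, Rk k F ∧ r = ‖K - F‖}, 0 ≤ r := by
    rintro k _ ⟨F, -, rfl⟩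
    exact norm_nonneg _
  have h0 : ∀ k, 0 ≤ a k := fun k => le_csInf (hne k) (hlb k)
  have hanti : Antitone a := fun k l hkl => csInf_le_csInf ⟨0, hlb l⟩ (hne k)
    fun _ ⟨F, hF, e⟩ => ⟨F, le_trans hF (by exact_mod_cast hkl), e⟩
  have hc := (summable_condensed_iff_of_nonneg (f := fun k : ℕ => a k / √((k : ℝ) + 1))
    (fun k => div_nonneg (h0 k) (Real.sqrt_nonneg _)) (fun k l _ hkl => by
      have := hanti hkl
      have := h0 k
      gcongr)).mpr h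
  have hex : ∀ m : ℕ, ∃ F : H →L[ℂ] H, Rk (2 ^ m) F ∧ ‖K - F‖ ≤ a (2 ^ m) + (1 / 4) ^ m := by
    intro m
    obtain ⟨_, ⟨F, hF, rfl⟩, hlt⟩ := exists_lt_of_csInf_lt (hne (2 ^ m))
      (show a (2 ^ m) < a (2 ^ m) + (1 / 4) ^ m by simp)
    exact ⟨F, hF, hlt.le⟩
  choose F hF hFn using hex
  set T : ℕ → ℝ := fun m => 3 * 2 ^ m / √((2 : ℝ) ^ m + 1) with hT
  have hp : ∀ m : ℕ, (1 : ℝ) ≤ 2 ^ m := fun m => one_le_pow₀ one_le_two
  have hT2 : ∀ m, 3 * 2 ^ m ≤ T m ^ 2 := fun m => by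
    rw [hT, div_pow, Real.sq_sqrt (by positivity), le_div_iff₀ (by positivity)]
    nlinarith [hp m]
  have hT0 : ∀ m, 0 ≤ T m := fun m => by positivity
  have hT1 : ∀ m, 1 ≤ T m := fun m => by nlinarith [hT2 m, hp m, hT0 m]
  have hT3 : ∀ m, T m ≤ 3 * 2 ^ m := fun m =>
    div_le_self (by positivity) (Real.one_le_sqrt.mpr (by linarith [hp m]))
  have hb : Summable fun m => (a (2 ^ m) + (1 / 4) ^ m) * T m := by
    simp only [add_mul]
    refine Summable.add ((hc.mul_left 3).congr fun m => ?_)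
      ((summable_geometric_two.mul_left 3).of_nonneg_of_le (fun m => by
        have := hT0 m; positivity) fun m => ?_)
    · simp only [hT]
      push_cast
      ring
    · refine (mul_le_mul_of_nonneg_left (hT3 m) (by positivity)).trans (le_of_eq ?_)
      rw [mul_left_comm, ← mul_pow]
      norm_num
  refine apx_of_seq F (fun m => 2 ^ m) (fun m => 2 ^ (m + 1) + 2 ^ m) T hF
    (fun m => (hF _).sub (hF _)) hT1 (fun m => le_trans (le_of_eq (by push_cast; ring)) (hT2 m))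
    ((hb.mul_left 2).of_nonneg_of_le (fun m => mul_nonneg (norm_nonneg _) (hT0 m)) fun m => ?_) ?_
  · rw [← mul_assoc]
    refine mul_le_mul_of_nonneg_right ?_ (hT0 m)
    have h1 : a (2 ^ (m + 1)) ≤ a (2 ^ m) := hanti (Nat.pow_le_pow_right two_pos m.le_succ)
    have h2 : (1 / 4 : ℝ) ^ (m + 1) ≤ (1 / 4) ^ m :=
      pow_le_pow_of_le_one (by norm_num) (by norm_num) m.le_succ
    have h3 := norm_sub_le (K - F m) (K - F (m + 1))
    rw [sub_sub_sub_cancel_left] at h3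
    linarith [hFn m, hFn (m + 1)]
  · rw [tendsto_iff_norm_sub_tendsto_zero]
    refine squeeze_zero (fun _ => norm_nonneg _) (fun m => ?_) hb.tendsto_atTop_zero
    rw [norm_sub_rev]
    exact (hFn m).trans (le_mul_of_one_le_right (by have := h0 (2 ^ m); positivity) (hT1 m))

end Pool.Agent.Work.MP_707689_an
end

-- merged part: Pool.Agent.Work.MP_707689_an.Key
section
open MeasureTheory Set Filter Topology Complex
open scoped ENNReal NNReal InnerProductSpace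

namespace Pool.Agent.Work.MP_707689_an

variable {H : Type} [NormedAddCommGroup H] [InnerProductSpace ℂ H] [CompleteSpace H]

/-- the unitary group generated by `A` -/
noncomputable def ex (A : H →L[ℂ] H) (t : ℝ) : H →L[ℂ] H := NormedSpace.exp ((I * (t : ℂ)) • A)

variable {A B : H →L[ℂ] H}

theorem ex_zero : ex A 0 = 1 := by simp [ex]

theorem ex_add (s t : ℝ) : ex A (s + t) = ex A s * ex A t := by
  letI : NormedAlgebra ℚ (H →L[ℂ] H) := NormedAlgebra.restrictScalars ℚ ℂ _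
  rw [ex, ex, ex, ← NormedSpace.exp_add_of_commute
    (((Commute.refl A).smul_left _).smul_right _), ← add_smul, ← mul_add, ofReal_add]

theorem ex_comm (h : Commute A B) (t : ℝ) : Commute A (ex B t) := (h.smul_right _).exp_right

theorem ex_comm' (h : Commute A B) (s t : ℝ) : Commute (ex A s) (ex B t) :=
  (ex_comm (ex_comm h.symm s).symm t)

theorem ex_inner (hA : IsSelfAdjoint A) (t : ℝ) (x y : H) :
    ⟪ex A t x, y⟫_ℂ = ⟪x, ex A (-t) y⟫_ℂ := by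
  rw [← ContinuousLinearMap.adjoint_inner_right, ← ContinuousLinearMap.star_eq_adjoint, ex, ex,
    NormedSpace.star_exp, star_smul, hA.star_eq]
  simp

theorem ex_cancel (t : ℝ) (x : H) : ex A (-t) (ex A t x) = x := by
  rw [← ContinuousLinearMap.mul_apply, ← ex_add, neg_add_cancel, ex_zero,
    ContinuousLinearMap.one_apply]

theorem ex_norm (hA : IsSelfAdjoint A) (t : ℝ) (x : H) : ‖ex A t x‖ = ‖x‖ := by
  rw [norm_eq_sqrt_re_inner (𝕜 := ℂ), ex_inner hA, ex_cancel, ← norm_eq_sqrt_re_inner]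

theorem ex_le (hA : IsSelfAdjoint A) (t : ℝ) : ‖ex A t‖ ≤ 1 :=
  ContinuousLinearMap.opNorm_le_bound _ zero_le_one fun x => by rw [ex_norm hA, one_mul]

theorem ex_deriv (t : ℝ) : HasDerivAt (ex A) ((I • A) * ex A t) t := by
  have e : ∀ u : ℝ, ex A u = NormedSpace.exp (u • (I • A)) := fun u => by
    rw [ex, mul_comm, mul_smul]
    rfl
  rw [funext e]
  exact hasDerivAt_exp_smul_const' (I • A) t

theorem ex_cont : Continuous (ex A) :=
  continuous_iff_continuousAt.mpr fun t => (ex_deriv t).continuousAt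

theorem deriv_app {c : ℝ → H →L[ℂ] H} {c' : H →L[ℂ] H} {t : ℝ} (h : HasDerivAt c c' t) (x : H) :
    HasDerivAt (fun u => c u x) (c' x) t :=
  ((ContinuousLinearMap.apply ℂ H x).restrictScalars ℝ).hasFDerivAt.comp_hasDerivAt t h

theorem ftc_le {f f' : ℝ → ℂ} (h : ∀ x, HasDerivAt f (f' x) x) (hc : Continuous f') (a b : ℝ) :
    ‖f b - f a‖ₑ ≤ ∫⁻ x in uIoc a b, ‖f' x‖ₑ := by
  rw [← intervalIntegral.integral_eq_sub_of_hasDerivAt (fun x _ => h x) (hc.intervalIntegrable a b),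
    ← ofReal_norm, intervalIntegral.norm_integral_eq_norm_integral_uIoc, ofReal_norm]
  exact enorm_integral_le_lintegral_enorm _

theorem sa_inner (hA : IsSelfAdjoint A) (x y : H) : ⟪A x, y⟫_ℂ = ⟪x, A y⟫_ℂ :=
  hA.isSymmetric x y

theorem key {A₁ A₂ B₁ B₂ : H →L[ℂ] H} (hA₁ : IsSelfAdjoint A₁) (hA₂ : IsSelfAdjoint A₂)
    (hB₁ : IsSelfAdjoint B₁) (hB : Commute B₁ B₂) (hK : Apx (A₁ - B₁)) {M : ℝ≥0} {v : ℝ × ℝ → H}
    (hv : Frame M v) (hd : ∀ (u a : ℝ × ℝ) (l : ℝ), HasDerivAt (fun l : ℝ => v (l • u + a))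
      (I • ((u.1 : ℂ) • A₁ (v (l • u + a)) + (u.2 : ℂ) • A₂ (v (l • u + a)))) l)
    (hn : ∀ k k', ⟪v k, v k⟫_ℂ = ⟪v k', v k'⟫_ℂ) (s t : ℝ) :
    ‖⟪ex B₁ (s - t) (v (t, 0)), v (s, 0)⟫_ℂ - ⟪v (t, 0), v (t, 0)⟫_ℂ‖ₑ ≤
      Phi (fun k => ‖⟪ex B₁ (s - t) (v (k + (t, 0))), (A₁ - B₁) (v (k + (s, 0)))⟫_ℂ‖ₑ) +
      Phi (fun k => ‖⟪v (k + (t, 0)), (A₁ - B₁) (ex B₁ (t - s) (v (k + (s, 0))))⟫_ℂ‖ₑ) +
      (Phi (fun k => ‖⟪ex B₁ (s - t) (v (k + (t, 0))), (A₂ - B₂) (v (k + (s, 0)))⟫_ℂ‖ₑ) +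
      Phi (fun k => ‖⟪v (k + (t, 0)), (A₂ - B₂) (ex B₁ (t - s) (v (k + (s, 0))))⟫_ℂ‖ₑ)) := by
  set a : (H →L[ℂ] H) → ℝ × ℝ → ℂ := fun K k =>
    ⟪ex B₁ (s - t) (v (k + (t, 0))), K (v (k + (s, 0)))⟫_ℂ with ha
  set b : (H →L[ℂ] H) → ℝ × ℝ → ℂ := fun K k =>
    ⟪v (k + (t, 0)), K (ex B₁ (t - s) (v (k + (s, 0))))⟫_ℂ with hb
  have cv := hv.cont
  have ca : ∀ K, Continuous (a K) := fun K => by rw [ha]; fun_prop
  have cb : ∀ K, Continuous (b K) := fun K => by rw [hb]; fun_prop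
  set g : ℝ × ℝ → ℝ≥0∞ := fun k => ‖a (A₁ - B₁) k‖ₑ + ‖b (A₁ - B₁) k‖ₑ +
    (‖a (A₂ - B₂) k‖ₑ + ‖b (A₂ - B₂) k‖ₑ) with hg
  have mg : Measurable g := ((ca _).measurable.enorm.add (cb _).measurable.enorm).add
    ((ca _).measurable.enorm.add (cb _).measurable.enorm)
  set Ψ : ℝ × ℝ → ℝ → ℂ := fun k τ => ⟪ex B₁ (τ - t) (v (k + (t, 0))), v (k + (τ, 0))⟫_ℂ with hΨ
  set h : ℝ × ℝ → ℝ → ℂ := fun k τ =>
    ⟪ex B₁ (τ - t) (v (k + (t, 0))), (A₁ - B₁) (v (k + (τ, 0)))⟫_ℂ with hh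
  have ch : Continuous fun z : (ℝ × ℝ) × ℝ => h z.1 z.2 := by
    have := ex_cont (A := B₁)
    simp only [hh]
    fun_prop
  have swap : ∀ {A B : H →L[ℂ] H}, IsSelfAdjoint A → Commute B₁ B → ∀ x y : H,
      ⟪ex B₁ (s - t) x, A y⟫_ℂ - ⟪ex B₁ (s - t) (A x), y⟫_ℂ =
      ⟪ex B₁ (s - t) x, (A - B) y⟫_ℂ - ⟪x, (A - B) (ex B₁ (t - s) y)⟫_ℂ := by
    intro A B hA hc x y
    have e : B (ex B₁ (t - s) y) = ex B₁ (t - s) (B y) :=
      congrArg (fun T : H →L[ℂ] H => T y) (ex_comm hc.symm (t - s)).eq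
    simp only [ex_inner hB₁, neg_sub, sa_inner hA, ContinuousLinearMap.sub_apply, map_sub,
      inner_sub_right, e]
    ring
  have ray : ∀ u ∈ Q, ∀ l : ℝ, 0 < l →
      ‖Ψ (l • u) s - Ψ 0 s‖ₑ ≤ ∫⁻ x in Ioi (0 : ℝ), g (x • u) := by
    intro u hu l hl
    have h1 := ftc_le (f := fun x : ℝ => Ψ (x • u) s) (f' := fun x : ℝ =>
      I * (u.1 * (a (A₁ - B₁) (x • u) - b (A₁ - B₁) (x • u)) +
        u.2 * (a (A₂ - B₂) (x • u) - b (A₂ - B₂) (x • u)))) (fun x => ?_)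
      (by have := ca (A₁ - B₁); have := cb (A₁ - B₁); have := ca (A₂ - B₂); have := cb (A₂ - B₂)
          fun_prop) 0 l
    · rw [zero_smul, uIoc_of_le hl.le] at h1
      refine h1.trans ((lintegral_mono fun x => ?_).trans
        (lintegral_mono_set Ioc_subset_Ioi_self))
      have h2 : ∀ r : ℝ, r ∈ Icc (0 : ℝ) 1 → ∀ p q : ℂ, ‖r * (p - q)‖ₑ ≤ ‖p‖ₑ + ‖q‖ₑ := by
        intro r hr p q
        rw [enorm_mul]
        refine (mul_le_of_le_one_left' ?_).trans enorm_sub_le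
        rw [← ofReal_norm, norm_real, Real.norm_of_nonneg hr.1]
        exact ENNReal.ofReal_le_one.mpr hr.2
      rw [enorm_mul, ← ofReal_norm I, norm_I, ENNReal.ofReal_one, one_mul]
      exact (enorm_add_le _ _).trans (add_le_add (h2 _ hu.1 _ _) (h2 _ hu.2 _ _))
    · have h3 := (((ex B₁ (s - t)).restrictScalars ℝ).hasFDerivAt.comp_hasDerivAt x
        (hd u (t, 0) x)).inner ℂ (hd u (s, 0) x)
      refine HasDerivAt.congr_deriv h3 ?_
      simp only [ha, hb, ← swap hA₁ (Commute.refl B₁), ← swap hA₂ hB, Function.comp,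
        ContinuousLinearMap.coe_restrictScalars', map_smul, map_add, inner_smul_left,
        inner_smul_right, inner_add_left, inner_add_right, conj_I, conj_ofReal]
      ring
  have leg : ∀ k, ‖Ψ k s - Ψ k t‖ₑ ≤ ∫⁻ τ in uIoc t s, ‖h k τ‖ₑ := by
    intro k
    refine (ftc_le (f := Ψ k) (f' := fun τ => I * h k τ) (fun τ => ?_)
      (continuous_const.mul (ch.comp (Continuous.prodMk_right k))) t s).trans (le_of_eq ?_)
    · have e : ∀ τ : ℝ, τ • ((1, 0) : ℝ × ℝ) + k = k + (τ, 0) := fun τ => by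
        ext <;> simp [add_comm]
      have h1 := hd (1, 0) k τ
      simp only [e] at h1
      have h2 := (deriv_app ((ex_deriv (A := B₁) (τ - t)).comp_sub_const τ t)
        (v (k + (t, 0)))).inner ℂ h1
      refine HasDerivAt.congr_deriv h2 ?_
      simp only [hh, ContinuousLinearMap.mul_apply, ContinuousLinearMap.smul_apply,
        ContinuousLinearMap.sub_apply, inner_smul_left, inner_smul_right, inner_sub_right,
        inner_add_right, conj_I, sa_inner hB₁, ofReal_one, ofReal_zero]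
      ring
    · simp only [enorm_mul, ← ofReal_norm I, norm_I, ENNReal.ofReal_one, one_mul]
  have const : ∀ k, Ψ k t = ⟪v (t, 0), v (t, 0)⟫_ℂ := fun k => by
    simp only [hΨ, sub_self, ex_zero, ContinuousLinearMap.one_apply]
    exact hn _ _
  refine le_trans (b := Phi g) ?_ ((Phi_add ((ca _).measurable.enorm.add (cb _).measurable.enorm)
    fun k => le_rfl).trans (add_le_add (Phi_add (ca _).measurable.enorm fun k => le_rfl)
    (Phi_add (ca _).measurable.enorm fun k => le_rfl)))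
  refine ENNReal.le_of_forall_pos_le_add fun δ hδ _ => ?_
  obtain ⟨ε, hε, hε'⟩ := ENNReal.exists_nnreal_pos_mul_lt (a := volume (uIoc t s)) (b := δ)
    (by simp) (by exact_mod_cast hδ.ne')
  obtain ⟨l, hl, hbd⟩ := hK.boundary M (ε := ε) (by exact_mod_cast hε)
  have mh : Measurable fun z : (ℝ × ℝ) × ℝ => ‖h (l • z.1) z.2‖ₑ :=
    (ch.comp (f := fun z : (ℝ × ℝ) × ℝ => (l • z.1, z.2)) (by fun_prop)).measurable.enorm
  calc _ = ∫⁻ _ in Q, ‖Ψ 0 s - ⟪v (t, 0), v (t, 0)⟫_ℂ‖ₑ := by simp [volQ, hΨ]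
    _ ≤ ∫⁻ u in Q, ((∫⁻ x in Ioi (0 : ℝ), g (x • u)) + ∫⁻ τ in uIoc t s, ‖h (l • u) τ‖ₑ) := by
        refine setLIntegral_mono' measQ fun u hu => le_trans ?_
          (add_le_add (ray u hu l hl) (leg (l • u)))
        rw [← const (l • u), enorm_sub_rev (Ψ (l • u) s)]
        exact le_trans (le_of_eq (by rw [sub_add_sub_cancel])) (enorm_add_le _ _)
    _ = Phi g + ∫⁻ τ in uIoc t s, ∫⁻ u in Q, ‖h (l • u) τ‖ₑ := by
        rw [lintegral_add_right _ mh.lintegral_prod_right', Phi,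
          lintegral_prod_symm _ (meas_ray mg).aemeasurable,
          lintegral_lintegral_swap (f := fun u τ => ‖h (l • u) τ‖ₑ) mh.aemeasurable]
    _ ≤ Phi g + δ := by
        gcongr
        refine (lintegral_mono fun τ => hbd _ _ (hv.shift (τ, 0))
          ((hv.shift (t, 0)).map (ex_le hB₁ (τ - t)))).trans ?_
        rw [setLIntegral_const]
        exact hε'.le

theorem cauchy_frame {A₁ A₂ B₁ B₂ : H →L[ℂ] H} (hA₁ : IsSelfAdjoint A₁) (hA₂ : IsSelfAdjoint A₂)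
    (hB₁ : IsSelfAdjoint B₁) (hB : Commute B₁ B₂) (hK₁ : Apx (A₁ - B₁)) (hK₂ : Apx (A₂ - B₂))
    {M : ℝ≥0} {v : ℝ × ℝ → H}
    (hv : Frame M v) (hd : ∀ (u a : ℝ × ℝ) (l : ℝ), HasDerivAt (fun l : ℝ => v (l • u + a))
      (I • ((u.1 : ℂ) • A₁ (v (l • u + a)) + (u.2 : ℂ) • A₂ (v (l • u + a)))) l)
    (hn : ∀ k k', ⟪v k, v k⟫_ℂ = ⟪v k', v k'⟫_ℂ) {ε : ℝ} (hε : 0 < ε) :
    ∃ S : ℝ, ∀ s, S ≤ s → ∀ t, S ≤ t →
      ‖ex B₁ (-s) (v (s, 0)) - ex B₁ (-t) (v (t, 0))‖ ≤ ε := by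
  have h0 : 0 < ENNReal.ofReal (ε ^ 2 / 8) := ENNReal.ofReal_pos.mpr (by positivity)
  obtain ⟨S, hS⟩ := eventually_atTop.mp ((hK₁.small hv h0).and (hK₂.small hv h0))
  refine ⟨S, fun s hs t ht => ?_⟩
  have f1 := (hv.shift (t, 0)).map (ex_le hB₁ (s - t))
  have f2 := (hv.shift (s, 0)).map (ex_le hB₁ (t - s))
  have h1 := (key hA₁ hA₂ hB₁ hB hK₁ hv hd hn s t).trans (add_le_add
    (add_le_add ((hS s hs).1 _ f1).1 ((hS t ht).1 _ f2).2)
    (add_le_add ((hS s hs).2 _ f1).1 ((hS t ht).2 _ f2).2))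
  rw [← ENNReal.ofReal_add (by positivity) (by positivity),
    ← ENNReal.ofReal_add (by positivity) (by positivity), ← ofReal_norm,
    ENNReal.ofReal_le_ofReal_iff (by positivity)] at h1
  have e1 : ⟪ex B₁ (-t) (v (t, 0)), ex B₁ (-s) (v (s, 0))⟫_ℂ =
      ⟪ex B₁ (s - t) (v (t, 0)), v (s, 0)⟫_ℂ := by
    rw [← ex_inner hB₁ s, ← ContinuousLinearMap.mul_apply, ← ex_add, sub_eq_add_neg]
  have e2 : ‖v (s, 0)‖ ^ 2 = ‖v (t, 0)‖ ^ 2 := by
    rw [← inner_self_eq_norm_sq (𝕜 := ℂ), ← inner_self_eq_norm_sq (𝕜 := ℂ), hn]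
  refine le_of_sq_le_sq ?_ hε.le
  rw [norm_sub_rev, norm_sub_sq (𝕜 := ℂ), e1, ex_norm hB₁, ex_norm hB₁, e2]
  have h2 := (abs_le.mp ((RCLike.abs_re_le_norm (K := ℂ) _).trans h1)).1
  rw [map_sub, inner_self_eq_norm_sq] at h2
  linarith

end Pool.Agent.Work.MP_707689_an
end

-- merged part: Pool.Agent.Work.MP_707689_an.Cyclic
section
open MeasureTheory Set Filter Topology Complex
open scoped ENNReal NNReal InnerProductSpace ComplexConjugate Real

namespace Pool.Agent.Work.MP_707689_an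

theorem ch_add (k l p : ℝ × ℝ) : ch (k + l) p = ch k p * ch l p := by
  rw [ch, ch, ch, ← exp_add]
  congr 1
  simp only [Prod.fst_add, Prod.snd_add]
  push_cast
  ring

theorem ch_neg (k p : ℝ × ℝ) : ch (-k) p = conj (ch k p) := by
  rw [ch, ch, ← exp_conj]
  congr 1
  simp
  ring

theorem ch_norm (k p : ℝ × ℝ) : ‖ch k p‖ = 1 := norm_exp_I_mul_ofReal _

theorem ch_cont (k : ℝ × ℝ) : Continuous (ch k) := by unfold ch; fun_prop

/-- trigonometric polynomials -/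
noncomputable def tp : ((ℝ × ℝ) →₀ ℂ) →ₗ[ℂ] (ℝ × ℝ → ℂ) := Finsupp.linearCombination ℂ ch

theorem tp_single (k : ℝ × ℝ) (c : ℂ) (p : ℝ × ℝ) : tp (Finsupp.single k c) p = c * ch k p := by
  simp [tp]

theorem tp_bdd (d : (ℝ × ℝ) →₀ ℂ) : Continuous (tp d) ∧ ∃ C, ∀ p, ‖tp d p‖ ≤ C := by
  induction d using Finsupp.induction_linear with
  | zero => exact ⟨by simpa using continuous_zero, 0, by simp⟩
  | add f g hf hg =>
    obtain ⟨h1, C, h2⟩ := hf
    obtain ⟨h3, D, h4⟩ := hg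
    rw [map_add]
    exact ⟨h1.add h3, C + D, fun p => (norm_add_le _ _).trans (add_le_add (h2 p) (h4 p))⟩
  | single k c =>
    rw [funext (tp_single k c)]
    exact ⟨continuous_const.mul (ch_cont k), ‖c‖, fun p => by simp [ch_norm]⟩

theorem int_bdd {μ : Measure (ℝ × ℝ)} [IsFiniteMeasure μ] {a b : ℝ × ℝ → ℂ}
    (ha : Continuous a ∧ ∃ C, ∀ p, ‖a p‖ ≤ C) (hb : Continuous b ∧ ∃ C, ∀ p, ‖b p‖ ≤ C) :
    Integrable (fun p => a p * b p) μ := by
  obtain ⟨h1, C, h2⟩ := ha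
  obtain ⟨h3, D, h4⟩ := hb
  refine Integrable.of_bound (h1.mul h3).aestronglyMeasurable (C * D)
    (Eventually.of_forall fun p => ?_)
  rw [norm_mul]
  exact mul_le_mul (h2 p) (h4 p) (norm_nonneg _) ((norm_nonneg _).trans (h2 p))

theorem ch_bdd (k : ℝ × ℝ) : Continuous (ch k) ∧ ∃ C, ∀ p, ‖ch k p‖ ≤ C :=
  ⟨ch_cont k, 1, fun p => (ch_norm k p).le⟩

theorem conj_bdd {a : ℝ × ℝ → ℂ} (ha : Continuous a ∧ ∃ C, ∀ p, ‖a p‖ ≤ C) :
    Continuous (fun p => conj (a p)) ∧ ∃ C, ∀ p, ‖conj (a p)‖ ≤ C :=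
  ⟨continuous_conj.comp ha.1, by simpa using ha.2⟩

theorem fourier_bound {μ : Measure (ℝ × ℝ)} [IsFiniteMeasure μ] (hμ : μ ≪ volume) (R : ℝ≥0)
    {g : ℝ × ℝ → ℂ} (hg : Continuous g ∧ ∃ C, ∀ p, ‖g p‖ ≤ C) :
    ∫⁻ k, ‖∫ p in {p | μ.rnDeriv volume p ≤ R}, ch (-k) p * g p ∂μ‖ₑ ^ 2 ≤
      ENNReal.ofReal ((2 * π) ^ 2) * R * ∫⁻ p, ‖g p‖ₑ ^ 2 ∂μ := by
  set D := {p | μ.rnDeriv volume p ≤ R} with hD
  have mρ := Measure.measurable_rnDeriv μ volume
  have mD : MeasurableSet D := measurableSet_le mρ measurable_const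
  set F : ℝ × ℝ → ℂ := fun p => (μ.rnDeriv volume p).toReal • D.indicator g p with hF
  have ig : Integrable g μ := by
    simpa using int_bdd (μ := μ) hg (b := fun _ => 1) ⟨continuous_const, 1, by simp⟩
  have iF : Integrable F := (integrable_rnDeriv_smul_iff hμ).mpr (ig.indicator mD)
  have h1 : ∫⁻ p, ‖F p‖ₑ ^ 2 ≤ R * ∫⁻ p, ‖g p‖ₑ ^ 2 ∂μ := by
    have mg : Measurable fun p => ‖g p‖ₑ ^ 2 := hg.1.measurable.enorm.pow_const 2
    rw [← lintegral_rnDeriv_mul hμ mg.aemeasurable, ← lintegral_const_mul _ (mρ.fun_mul mg)]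
    refine lintegral_mono fun p => ?_
    by_cases hp : p ∈ D
    · have hp' : μ.rnDeriv volume p ≤ R := hp
      simp only [hF, indicator_of_mem hp, enorm_smul, mul_pow]
      rw [Real.enorm_toReal (ne_top_of_le_ne_top ENNReal.coe_ne_top hp'), sq, mul_assoc]
      gcongr
    · simp [hF, hp]
  have h2 : ∫⁻ p, ‖g p‖ₑ ^ 2 ∂μ ≠ ∞ := by
    obtain ⟨C, hC⟩ := hg.2
    refine ne_top_of_le_ne_top ?_ (lintegral_mono (g := fun _ => ENNReal.ofReal C ^ 2) fun p => ?_)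
    · rw [lintegral_const]
      finiteness
    · simp only [← ofReal_norm]
      gcongr
      exact hC p
  have mF : MemLp F 2 volume := ⟨iF.1, by
    have h3 : eLpNorm F 2 volume ^ 2 < ∞ := by
      rw [← lint_sq]
      exact h1.trans_lt (by finiteness)
    simpa using ENNReal.pow_lt_top_iff.mp h3⟩
  have e : ∀ k, ∫ p in D, ch (-k) p * g p ∂μ = ∫ p, ch (-k) p * F p := fun k => by
    rw [← integral_indicator mD, ← integral_rnDeriv_smul hμ]
    congr 1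
    funext p
    by_cases hp : p ∈ D <;> simp [hF, hp, mul_left_comm]
  simp only [e]
  rw [plancherel iF mF, mul_assoc]
  gcongr

variable {H : Type} [NormedAddCommGroup H] [InnerProductSpace ℂ H] [CompleteSpace H]

theorem exists_frame {E : ℝ × ℝ → H →L[ℂ] H} (hE0 : E 0 = 1) (hE : ∀ k l, E (k + l) = E k * E l)
    (hEi : ∀ k x y, ⟪E k x, y⟫_ℂ = ⟪x, E (-k) y⟫_ℂ) (hEc : Continuous E)
    (hEn : ∀ k x, ‖E k x‖ = ‖x‖) (x : H) {μ : Measure (ℝ × ℝ)} [IsFiniteMeasure μ]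
    (hμ : μ ≪ volume) (hx : ∀ k, ⟪x, E k x⟫_ℂ = ∫ p, ch k p ∂μ) {ε : ℝ} (hε : 0 < ε) :
    ∃ (ξ : H) (M : ℝ≥0), ‖x - ξ‖ ≤ ε ∧ Frame M fun k => E k ξ := by
  have mρ := Measure.measurable_rnDeriv μ volume
  have mD : ∀ R : ℕ, MeasurableSet {p | μ.rnDeriv volume p ≤ R} := fun R =>
    measurableSet_le mρ measurable_const
  obtain ⟨R, hR⟩ : ∃ R : ℕ, μ {p | μ.rnDeriv volume p ≤ R}ᶜ ≤ ENNReal.ofReal ε ^ 2 := by
    have h1 := tendsto_measure_iInter_atTop (μ := μ)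
      (s := fun R : ℕ => {p | μ.rnDeriv volume p ≤ R}ᶜ) (fun R => (mD R).compl.nullMeasurableSet)
      (fun R S h => compl_subset_compl.mpr fun p hp =>
        le_trans (b := (R : ℝ≥0∞)) hp (by exact_mod_cast h))
      ⟨0, measure_ne_top _ _⟩
    have h2 : μ (⋂ R : ℕ, {p | μ.rnDeriv volume p ≤ R}ᶜ) = 0 := by
      refine hμ (measure_mono_null (fun p hp => ?_) (ae_iff.mp (Measure.rnDeriv_lt_top μ volume)))
      intro h
      obtain ⟨n, hn⟩ := ENNReal.exists_nat_gt (ne_of_lt h)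
      exact mem_iInter.mp hp n hn.le
    rw [h2] at h1
    exact (ENNReal.tendsto_nhds_zero.mp h1 _ (ENNReal.pow_pos (by simpa using hε) 2)).exists
  set D := {p | μ.rnDeriv volume p ≤ R} with hD
  set T : ((ℝ × ℝ) →₀ ℂ) →ₗ[ℂ] H := Finsupp.linearCombination ℂ fun k => E k x with hT
  have Ts : ∀ k c, T (Finsupp.single k c) = c • E k x := fun k c => by simp [hT]
  have id1 : ∀ (ν : Measure (ℝ × ℝ)) [IsFiniteMeasure ν] (y : H),
      (∀ k, ⟪y, E k x⟫_ℂ = ∫ p, ch k p ∂ν) → ∀ k d,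
      ⟪E k y, T d⟫_ℂ = ∫ p, ch (-k) p * tp d p ∂ν := by
    intro ν _ y hy k d
    induction d using Finsupp.induction_linear with
    | zero => simp
    | add f g hf hg =>
      simp only [map_add, inner_add_right, hf, hg, Pi.add_apply, mul_add]
      rw [integral_add (int_bdd (ch_bdd _) (tp_bdd _)) (int_bdd (ch_bdd _) (tp_bdd _))]
    | single l c =>
      rw [Ts, inner_smul_right, hEi, ← ContinuousLinearMap.mul_apply, ← hE, hy,
        ← integral_const_mul]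
      simp only [tp_single, ch_add, mul_left_comm]
  have id2 : ∀ d' d, ⟪T d', T d⟫_ℂ = ∫ p, conj (tp d' p) * tp d p ∂μ := by
    intro d' d
    induction d' using Finsupp.induction_linear with
    | zero => simp
    | add f g hf hg =>
      simp only [map_add, inner_add_left, hf, hg, Pi.add_apply, add_mul]
      rw [integral_add (int_bdd (conj_bdd (tp_bdd _)) (tp_bdd _))
        (int_bdd (conj_bdd (tp_bdd _)) (tp_bdd _))]
    | single l c =>
      rw [Ts, inner_smul_left, id1 μ x hx, ← integral_const_mul]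
      simp only [tp_single, ch_neg, map_mul, mul_assoc]
  have id3 : ∀ d, ∫⁻ p, ‖tp d p‖ₑ ^ 2 ∂μ = ‖T d‖ₑ ^ 2 := by
    intro d
    have h1 := id2 d d
    simp only [inner_self_eq_norm_sq_to_K, conj_mul', ← ofReal_pow, integral_complex_ofReal,
      coe_algebraMap, ofReal_inj] at h1
    have h2 := (int_bdd (μ := μ) (tp_bdd d) (tp_bdd d)).norm
    simp only [← sq, norm_pow] at h2
    rw [← ofReal_norm, ← ENNReal.ofReal_pow (norm_nonneg _), h1,
      ofReal_integral_eq_lintegral_ofReal h2 (Eventually.of_forall fun p => by positivity)]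
    simp only [ENNReal.ofReal_pow (norm_nonneg _), ofReal_norm]
  set K := (LinearMap.range T).topologicalClosure with hK
  have TK : ∀ d, T d ∈ K := fun d => Submodule.le_topologicalClosure _ (LinearMap.mem_range_self _ d)
  have hdense : DenseRange (T.codRestrict K TK) := by
    rw [DenseRange, Subtype.dense_iff, ← range_comp]
    exact subset_rfl
  set f : ((ℝ × ℝ) →₀ ℂ) →ₗ[ℂ] ℂ := Finsupp.linearCombination ℂ fun k => ∫ p in Dᶜ, ch k p ∂μ
    with hf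
  have itp : ∀ (ν : Measure (ℝ × ℝ)) [IsFiniteMeasure ν] d, Integrable (tp d) ν := fun ν _ d => by
    simpa using int_bdd (μ := ν) (tp_bdd d) (b := fun _ => 1) ⟨continuous_const, 1, by simp⟩
  have fe : ∀ d, f d = ∫ p in Dᶜ, tp d p ∂μ := by
    intro d
    induction d using Finsupp.induction_linear with
    | zero => simp
    | add f g hf hg =>
      simp only [map_add, hf, hg, Pi.add_apply]
      rw [integral_add (itp _ _) (itp _ _)]
    | single l c => simp [hf, tp_single, integral_const_mul]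
  have fb : ∀ d, ‖f d‖ ≤ ε * ‖T.codRestrict K TK d‖ := by
    intro d
    have h1 := cs (μ := μ.restrict Dᶜ) (a := fun _ => 1) measurable_const
      (tp_bdd d).1.measurable.enorm (A := ENNReal.ofReal ε) (B := ‖T d‖ₑ) (by simpa using hR)
      ((setLIntegral_le_lintegral _ _).trans (id3 d).le)
    simp only [one_mul] at h1
    have h2 := (enorm_integral_le_lintegral_enorm _).trans h1
    rwa [← fe, ← ofReal_norm, ← ofReal_norm, ← ENNReal.ofReal_mul hε.le,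
      ENNReal.ofReal_le_ofReal_iff (by positivity)] at h2
  set ζ : K := (InnerProductSpace.toDual ℂ K).symm (f.extendOfNorm (T.codRestrict K TK)) with hζ
  have hζ1 : ‖(ζ : H)‖ ≤ ε := by
    rw [← Submodule.coe_norm, hζ, LinearIsometryEquiv.norm_map]
    exact LinearMap.opNorm_extendOfNorm_le hdense hε.le fb
  have hζ2 : ∀ d, ⟪(ζ : H), T d⟫_ℂ = f d := fun d => by
    rw [← LinearMap.extendOfNorm_eq hdense ⟨ε, fb⟩ d, ← InnerProductSpace.toDual_symm_apply]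
    rfl
  have hξ : ∀ k, ⟪x - ζ, E k x⟫_ℂ = ∫ p in D, ch k p ∂μ := fun k => by
    have h1 := hζ2 (Finsupp.single k 1)
    have h2 := itp μ (Finsupp.single k 1)
    rw [Ts, one_smul, fe] at h1
    simp only [funext (tp_single k 1), one_mul] at h1 h2
    rw [inner_sub_left, hx, h1, ← integral_add_compl (mD R) h2, add_sub_cancel_right]
  have xK : x - ζ ∈ K := K.sub_mem (by simpa [Ts, hE0] using TK (Finsupp.single 0 1)) ζ.2
  have EK : ∀ k, ∀ y ∈ K, E k y ∈ K := by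
    intro k y hy
    refine map_mem_closure (E k).continuous hy ?_
    rintro _ ⟨d, rfl⟩
    induction d using Finsupp.induction_linear with
    | zero => simp
    | add f g hf hg =>
      rw [map_add, map_add]
      exact Submodule.add_mem _ hf hg
    | single l c =>
      exact ⟨Finsupp.single (k + l) c, by rw [Ts, Ts, map_smul, hE, ContinuousLinearMap.mul_apply]⟩
  set c : ℝ≥0 := Real.toNNReal ((2 * π) ^ 2) * R with hc
  have cv : Continuous fun k => E k (x - ζ) := by fun_prop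
  refine ⟨x - ζ, ‖x - ζ‖₊ + c + 1, by simpa using hζ1, cv, fun k => ?_, fun h => ?_⟩
  · rw [← ofReal_norm, hEn, ofReal_norm, enorm_eq_nnnorm, ENNReal.coe_le_coe, add_assoc]
    exact le_self_add
  have hb : ∀ y ∈ K, ∫⁻ k, ‖⟪y, E k (x - ζ)⟫_ℂ‖ₑ ^ 2 ≤ c * ‖y‖ₑ ^ 2 := by
    intro y hy
    obtain ⟨u, hu, hl⟩ := mem_closure_iff_seq_limit.mp hy
    have h1 : ∀ n, ∫⁻ k, ‖⟪u n, E k (x - ζ)⟫_ℂ‖ₑ ^ 2 ≤ c * ‖u n‖ₑ ^ 2 := by
      intro n
      obtain ⟨d, hd⟩ := hu n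
      have h2 := fourier_bound hμ R (tp_bdd d)
      rw [id3] at h2
      rw [← hd]
      refine le_trans (le_of_eq ?_) h2
      congr 1
      funext k
      rw [← ofReal_norm, norm_inner_symm, ofReal_norm, id1 (μ.restrict D) _ hξ]
      rfl
    have h3 : Tendsto (fun n => (c : ℝ≥0∞) * ‖u n‖ₑ ^ 2) atTop (𝓝 (c * ‖y‖ₑ ^ 2)) :=
      ENNReal.Tendsto.const_mul (ENNReal.Tendsto.pow hl.enorm) (Or.inr ENNReal.coe_ne_top)
    have h4 : ∀ k, Tendsto (fun n => ‖⟪u n, E k (x - ζ)⟫_ℂ‖ₑ ^ 2) atTop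
        (𝓝 (‖⟪y, E k (x - ζ)⟫_ℂ‖ₑ ^ 2)) := fun k =>
      ENNReal.Tendsto.pow (hl.inner tendsto_const_nhds).enorm
    simp only [← fun k => (h4 k).liminf_eq, ← h3.liminf_eq]
    exact (lintegral_liminf_le fun n =>
      (continuous_const.inner cv).measurable.enorm.pow_const 2).trans
      (liminf_le_liminf (Eventually.of_forall h1))
  have e : ∀ k, ⟪h, E k (x - ζ)⟫_ℂ = ⟪K.starProjection h, E k (x - ζ)⟫_ℂ := fun k => by
    rw [← sub_eq_zero, ← inner_sub_left]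
    exact K.starProjection_inner_eq_zero _ _ (EK k _ xK)
  simp only [e]
  refine (hb _ (K.starProjection_apply_mem h)).trans ?_
  rw [mul_pow]
  gcongr
  · rw [← ENNReal.coe_pow, ENNReal.coe_le_coe]
    exact le_trans (le_trans le_add_self le_self_add) (le_self_pow₀ le_add_self two_ne_zero)
  · exact enorm_le_iff_norm_le.mpr (K.norm_starProjection_apply_le h)

end Pool.Agent.Work.MP_707689_an
end

-- merged part: Pool.Agent.Work.MP_707689_an.Main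
section
open MeasureTheory Set Filter Topology Complex
open scoped ENNReal NNReal InnerProductSpace

namespace Pool.Agent.Work.MP_707689_an

variable {H : Type} [NormedAddCommGroup H] [InnerProductSpace ℂ H] [CompleteSpace H]

theorem main {A₁ A₂ B₁ B₂ : H →L[ℂ] H} (hA₁ : IsSelfAdjoint A₁) (hA₂ : IsSelfAdjoint A₂)
    (hB₁ : IsSelfAdjoint B₁) (hA : Commute A₁ A₂) (hB : Commute B₁ B₂) (hK₁ : Apx (A₁ - B₁))
    (hK₂ : Apx (A₂ - B₂)) (x : H) {μ : Measure (ℝ × ℝ)} [IsFiniteMeasure μ] (hμ : μ ≪ volume)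
    (hx : ∀ k : ℝ × ℝ, ⟪x, (ex A₁ k.1 * ex A₂ k.2) x⟫_ℂ = ∫ p, ch k p ∂μ) :
    ∃ y, Tendsto (fun t : ℝ => ex B₁ (-t) (ex A₁ t x)) atTop (𝓝 y) := by
  set E : ℝ × ℝ → H →L[ℂ] H := fun k => ex A₁ k.1 * ex A₂ k.2 with hE
  have hE0 : E 0 = 1 := by simp [hE, ex_zero]
  have hEa : ∀ k l, E (k + l) = E k * E l := fun k l => by
    simp only [hE, Prod.fst_add, Prod.snd_add, ex_add]
    rw [mul_assoc, ← mul_assoc (ex A₁ l.1), (ex_comm' hA l.1 k.2).eq, mul_assoc, mul_assoc]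
  have hEi : ∀ k x y, ⟪E k x, y⟫_ℂ = ⟪x, E (-k) y⟫_ℂ := fun k x y => by
    simp only [hE, Prod.fst_neg, Prod.snd_neg]
    rw [(ex_comm' hA (-k.1) (-k.2)).eq, ContinuousLinearMap.mul_apply,
      ContinuousLinearMap.mul_apply, ex_inner hA₁, ex_inner hA₂]
  have hEc : Continuous E := (ex_cont.comp continuous_fst).mul (ex_cont.comp continuous_snd)
  have hEn : ∀ k x, ‖E k x‖ = ‖x‖ := fun k x => by
    simp only [hE, ContinuousLinearMap.mul_apply, ex_norm hA₁, ex_norm hA₂]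
  have hd : ∀ (ξ : H) (u a : ℝ × ℝ) (l : ℝ), HasDerivAt (fun l : ℝ => E (l • u + a) ξ)
      (I • ((u.1 : ℂ) • A₁ (E (l • u + a) ξ) + (u.2 : ℂ) • A₂ (E (l • u + a) ξ))) l := by
    intro ξ u a l
    have d : ∀ (A : H →L[ℂ] H) (b c : ℝ), HasDerivAt (fun l : ℝ => ex A (l * b + c))
        (b • ((I • A) * ex A (l * b + c))) l := fun A b c =>
      HasDerivAt.scomp (g₁ := ex A) (h := fun l : ℝ => l * b + c) l (ex_deriv (l * b + c))
        ((hasDerivAt_mul_const b).add_const c)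
    refine HasDerivAt.congr_deriv (deriv_app ((d A₁ u.1 a.1).mul (d A₂ u.2 a.2)) ξ) ?_
    have e := congrArg (fun T : H →L[ℂ] H => T (ex A₂ (l * u.2 + a.2) ξ))
      (ex_comm hA.symm (l * u.1 + a.1)).eq
    have e' := congrArg (fun T : H →L[ℂ] H => T ξ) (ex_comm (Commute.refl A₂) (l * u.2 + a.2)).eq
    simp only [ContinuousLinearMap.mul_apply] at e e'
    simp only [hE, Prod.fst_add, Prod.snd_add, Prod.smul_fst, Prod.smul_snd, smul_eq_mul,
      ContinuousLinearMap.add_apply, ContinuousLinearMap.mul_apply, ContinuousLinearMap.smul_apply,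
      map_smul, e, smul_add, ← coe_smul]
    rw [smul_comm I, smul_comm I]
  rw [← cauchy_map_iff_exists_tendsto, Metric.cauchy_iff]
  refine ⟨map_neBot, fun ε hε => ?_⟩
  obtain ⟨ξ, M, hξ, hv⟩ := exists_frame hE0 hEa hEi hEc hEn x hμ hx (ε := ε / 4) (by positivity)
  obtain ⟨S, hS⟩ := cauchy_frame hA₁ hA₂ hB₁ hB hK₁ hK₂ hv (hd ξ)
    (fun k k' => by rw [inner_self_eq_norm_sq_to_K, inner_self_eq_norm_sq_to_K, hEn, hEn])
    (ε := ε / 4) (by positivity)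
  refine ⟨_, image_mem_map (Ici_mem_atTop S), ?_⟩
  rintro _ ⟨s, hs, rfl⟩ _ ⟨t, ht, rfl⟩
  have h1 := hS s hs t ht
  simp only [hE, ex_zero, mul_one] at h1
  have h2 : ∀ r, ‖ex B₁ (-r) (ex A₁ r x) - ex B₁ (-r) (ex A₁ r ξ)‖ ≤ ε / 4 := fun r => by
    rwa [← map_sub, ← map_sub, ex_norm hB₁, ex_norm hA₁]
  have h3 := dist_triangle4 (ex B₁ (-s) (ex A₁ s x)) (ex B₁ (-s) (ex A₁ s ξ))
    (ex B₁ (-t) (ex A₁ t ξ)) (ex B₁ (-t) (ex A₁ t x))
  rw [dist_comm (ex B₁ (-t) (ex A₁ t ξ))] at h3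
  simp only [dist_eq_norm] at h3 ⊢
  linarith [h2 s, h2 t]

end Pool.Agent.Work.MP_707689_an
end
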