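import Mathlib

open MeasureTheory Set Filter Topology FourierTransform
open scoped ENNReal Real SchwartzMap

namespace Pool.Agent.Work.MP_707689_an

theorem eLpNorm_fourier {E : Type*} [NormedAddCommGroup E] [InnerProductSpace ℝ E]
    [FiniteDimensional ℝ E] [MeasurableSpace E] [BorelSpace E] {f : E → ℂ} (h1 : Integrable f)
    (h2 : MemLp f 2) : eLpNorm (𝓕 f) 2 volume = eLpNorm f 2 volume := by
  set g : Lp ℂ 2 (volume : Measure E) := 𝓕 (h2.toLp f) with hg
  have hc : Continuous (𝓕 f) := VectorFourier.fourierIntegral_continuous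
    Real.continuous_fourierChar (innerSL ℝ).continuous₂ h1
  have hae : ∀ᵐ x ∂(volume : Measure E), 𝓕 f x = g x := by
    refine ae_eq_of_integral_contDiff_smul_eq hc.locallyIntegrable
      ((Lp.memLp g).locallyIntegrable one_le_two) fun φ hφ hs => ?_
    have hs' : HasCompactSupport fun x => (φ x : ℂ) := hs.comp_left (g := fun r : ℝ => (r : ℂ)) rfl
    have hφ' : ContDiff ℝ (⊤ : ℕ∞) fun x => (φ x : ℂ) := Complex.ofRealCLM.contDiff.comp hφ
    set ψ : 𝓢(E, ℂ) := hs'.toSchwartzMap hφ' with hψ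
    have e1 := congrArg (fun T : TemperedDistribution E ℂ => T ψ)
      (Lp.fourier_toTemperedDistribution_eq (h2.toLp f))
    simp only [TemperedDistribution.fourier_apply, Lp.toTemperedDistribution_apply] at e1
    have e2 : ∫ ξ, 𝓕 (ψ : E → ℂ) ξ • f ξ = ∫ x, ψ x • 𝓕 f x := by
      simpa using! VectorFourier.integral_fourierIntegral_smul_eq_flip (L := innerₗ E)
        Real.continuous_fourierChar continuous_inner ψ.integrable h1
    have e3 : ∫ ξ, (𝓕 ψ : 𝓢(E, ℂ)) ξ • (h2.toLp f) ξ = ∫ ξ, 𝓕 (ψ : E → ℂ) ξ • f ξ := by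
      refine integral_congr_ae ?_
      filter_upwards [h2.coeFn_toLp] with x hx
      rw [hx, SchwartzMap.fourier_coe]
    exact (e2.symm.trans e3.symm).trans e1
  rw [eLpNorm_congr_ae hae, ← Lp.enorm_def, hg, ← ofReal_norm, Lp.norm_fourier_eq, ofReal_norm,
    Lp.enorm_toLp]

theorem lint_smul {g : ℝ × ℝ → ℝ≥0∞} (hg : Measurable g) {l : ℝ} (hl : 0 < l) :
    ∫⁻ u, g (l • u) = ENNReal.ofReal (l ^ 2)⁻¹ * ∫⁻ k, g k := by
  rw [← lintegral_map hg (measurable_const_smul l), Measure.map_addHaar_smul _ hl.ne',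
    lintegral_smul_measure, abs_of_pos (by positivity)]
  simp

/-- the characters of the plane -/
noncomputable def ch (k p : ℝ × ℝ) : ℂ :=
  Complex.exp (Complex.I * ((k.1 * p.1 + k.2 * p.2 : ℝ) : ℂ))

theorem lint_sq {α : Type*} [MeasurableSpace α] {μ : Measure α} (f : α → ℂ) :
    ∫⁻ a, ‖f a‖ₑ ^ 2 ∂μ = eLpNorm f 2 μ ^ 2 := by
  have := eLpNorm_nnreal_pow_eq_lintegral (μ := μ) (f := f) (p := 2) two_ne_zero
  simpa using this.symm

theorem plancherel {f : ℝ × ℝ → ℂ} (h1 : Integrable f) (h2 : MemLp f 2) :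
    ∫⁻ k, ‖∫ p, ch (-k) p * f p‖ₑ ^ 2 = ENNReal.ofReal ((2 * π) ^ 2) * ∫⁻ p, ‖f p‖ₑ ^ 2 := by
  have mp := Complex.volume_preserving_equiv_real_prod
  set e := Complex.measurableEquivRealProd
  have h := eLpNorm_fourier (f := f ∘ e) (mp.integrable_comp_of_integrable h1)
    (h2.comp_measurePreserving mp)
  have hc : Continuous (𝓕 (f ∘ e)) := VectorFourier.fourierIntegral_continuous
    Real.continuous_fourierChar (innerSL ℝ).continuous₂ (mp.integrable_comp_of_integrable h1)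
  have mG : Measurable fun k => ‖𝓕 (f ∘ e) (e.symm k)‖ₑ ^ 2 :=
    (hc.measurable.comp e.symm.measurable).enorm.pow_const 2
  have e1 : ∀ k : ℝ × ℝ, ∫ p, ch (-k) p * f p = 𝓕 (f ∘ e) (e.symm ((2 * π)⁻¹ • k)) := by
    intro k
    rw [Real.fourier_eq', ← mp.integral_comp' (fun p => ch (-k) p * f p)]
    congr 1
    funext z
    simp only [ch, smul_eq_mul, Function.comp]
    congr 2
    rw [mul_comm]
    congr 2
    simp [e, Complex.inner]
    field_simp
    ring
  simp only [e1]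
  rw [lint_smul mG (by positivity), mp.symm.lintegral_comp (f := fun z => ‖𝓕 (f ∘ e) z‖ₑ ^ 2)
    (hc.measurable.enorm.pow_const 2), lint_sq, h, eLpNorm_comp_measurePreserving h2.1 mp, lint_sq,
    inv_pow, inv_inv]

end Pool.Agent.Work.MP_707689_an
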